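import Pool.Agent.W282.RW.Stm
import Pool.Agent.W216.LF.TR

/-!
# A point with algebraically independent `j`-invariants
-/

set_option autoImplicit false

open MvPolynomial

namespace Pool.Agent.W67.RW

open Pool.Agent.W466.ZP Pool.Agent.W282.RW

/-- Integral elements with the same residue. -/
def Cl (V : ValuationSubring ℂ) (a b : ℂ) : Prop := a ∈ V ∧ b ∈ V ∧ V.valuation (a - b) < 1

section
variable {V : ValuationSubring ℂ}

theorem Cl.refl {a : ℂ} (h : a ∈ V) : Cl V a a :=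
  ⟨h, h, by rw [sub_self, map_zero]; exact zero_lt_one⟩

theorem Cl.add {a b c d : ℂ} (h1 : Cl V a b) (h2 : Cl V c d) : Cl V (a + c) (b + d) :=
  ⟨add_mem h1.1 h2.1, add_mem h1.2.1 h2.2.1, by
    rw [add_sub_add_comm]
    exact Valuation.map_add_lt _ h1.2.2 h2.2.2⟩

theorem Cl.mul {a b c d : ℂ} (h1 : Cl V a b) (h2 : Cl V c d) : Cl V (a * c) (b * d) :=
  ⟨mul_mem h1.1 h2.1, mul_mem h1.2.1 h2.2.1, by
    have e : a * c - b * d = a * (c - d) + (a - b) * d := by ring
    rw [e]
    refine Valuation.map_add_lt _ ?_ ?_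
    · rw [map_mul]
      exact (mul_le_of_le_one_left' ((ValuationSubring.valuation_le_one_iff _ _).2
        h1.1)).trans_lt h2.2.2
    · rw [map_mul]
      exact (mul_le_of_le_one_right' ((ValuationSubring.valuation_le_one_iff _ _).2
        h2.2.1)).trans_lt h1.2.2⟩

theorem Cl.pow {a b : ℂ} (h1 : Cl V a b) (k : ℕ) : Cl V (a ^ k) (b ^ k) := by
  induction k with
  | zero =>
    rw [pow_zero, pow_zero]
    exact Cl.refl (one_mem V)
  | succ k ih =>
    rw [pow_succ, pow_succ]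
    exact ih.mul h1

theorem Cl.val {a b : ℂ} (h1 : Cl V a b) (hb : V.valuation b = 1) : V.valuation a = 1 := by
  have h2 : a = (a - b) + b := by ring
  rw [h2, Valuation.map_add_eq_of_lt_right, hb]
  rw [hb]
  exact h1.2.2

theorem Cl.of_lt {a b : ℂ} (hb : b ∈ V) (h : V.valuation (a - b) < 1) : Cl V a b := by
  refine ⟨?_, hb, h⟩
  have h2 : a = (a - b) + b := by ring
  rw [h2]
  exact add_mem ((ValuationSubring.valuation_le_one_iff _ _).1 h.le) hb

end

theorem not_dvd_27 {p : ℕ} (hp : p.Prime) (h3 : 3 < p) : ¬ (p : ℤ) ∣ 27 := by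
  intro h
  have h1 : p ∣ 3 ^ 3 := by
    have h2 : ((p : ℕ) : ℤ) ∣ ((3 ^ 3 : ℕ) : ℤ) := by simpa using h
    exact_mod_cast h2
  have := Nat.le_of_dvd (by norm_num) (hp.dvd_of_dvd_pow h1)
  omega

theorem not_dvd_C27 {m p : ℕ} (hp : p.Prime) (h3 : 3 < p) :
    ¬ (C (p : ℤ) ∣ (C 27 : MvPolynomial (Fin m) ℤ)) := by
  intro h
  rw [C_dvd_iff_dvd_coeff] at h
  have h2 := h 0
  rw [coeff_zero_C] at h2
  exact not_dvd_27 hp h3 h2

theorem not_dvd_lin {m p : ℕ} (hp : p.Prime) (h3 : 3 < p) (i : Fin m) {e : ℕ} (he : 0 < e) :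
    ¬ (C (p : ℤ) ∣ (C 4 * X i ^ e + C 27 : MvPolynomial (Fin m) ℤ)) := by
  intro h
  rw [C_dvd_iff_dvd_coeff] at h
  have h2 := h 0
  have e1 : coeff 0 (C 4 * X i ^ e + C 27 : MvPolynomial (Fin m) ℤ) = 27 := by
    rw [← constantCoeff_eq, map_add, map_mul, map_pow, constantCoeff_C, constantCoeff_C,
      constantCoeff_X, zero_pow he.ne', mul_zero, zero_add]
  rw [e1] at h2
  exact not_dvd_27 hp h3 h2

/-- The last step: numbers which generate a field with enough algebraically independent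
elements. -/
theorem algInd_of_adjoin {m : ℕ} (j z : Fin m → ℂ) (hz : AlgebraicIndependent ℚ z)
    (hmem : ∀ i, z i ∈ IntermediateField.adjoin ℚ (Set.range j)) : AlgebraicIndependent ℚ j := by
  classical
  obtain ⟨S, hS, hind⟩ := Pool.Agent.W216.LF.tr ℚ m (Fin.cons 1 j) 0 (by simp) (Fin m) z hz (by
    intro i
    refine IntermediateField.adjoin.mono ℚ _ _ ?_ (hmem i)
    rintro _ ⟨a, rfl⟩
    exact ⟨a.succ, by simp⟩)
  rw [Nat.card_eq_fintype_card, Fintype.card_fin] at hS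
  have h0 : (0 : Fin (m + 1)) ∉ S := by
    intro h0
    have h1 := hind.transcendental ⟨0, h0⟩
    apply h1
    simp only [Fin.cons_zero, div_one]
    exact isAlgebraic_one
  have hSe : S = Finset.univ.erase 0 := by
    apply Finset.eq_of_subset_of_card_le
    · intro x hx
      rw [Finset.mem_erase]
      refine ⟨fun h => h0 (h ▸ hx), Finset.mem_univ _⟩
    · rw [Finset.card_erase_of_mem (Finset.mem_univ _), hS, Finset.card_univ, Fintype.card_fin]
      omega
  have hmemS : ∀ i : Fin m, i.succ ∈ S := by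
    intro i
    rw [hSe, Finset.mem_erase]
    exact ⟨Fin.succ_ne_zero i, Finset.mem_univ _⟩
  have h5 := hind.comp (fun i : Fin m => (⟨i.succ, hmemS i⟩ : S)) (by
    intro a b hab
    have h6 := congrArg Subtype.val hab
    exact Fin.succ_injective m h6)
  have h7 : ((fun j' : S => (Fin.cons 1 j : Fin (m + 1) → ℂ) j' / (Fin.cons 1 j : Fin (m + 1) → ℂ) 0) ∘
      (fun i : Fin m => (⟨i.succ, hmemS i⟩ : S))) = j := by
    funext i
    simp
  rw [h7] at h5
  exact h5

theorem dom : S_DOM := by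
  intro σ _ _ Y n m hmn e he s p hp hp3 hgood hdim A B hA hA0 hB
  classical
  obtain ⟨w, hw⟩ := exists_algInd m
  obtain ⟨V, hV, hwV, hgauss⟩ := exists_gauss w hw hp
  obtain ⟨y0, hy0, hy0Y, hy0l⟩ := hdim (fun i j => (s i.succ j : ℂ) - w i * (s 0 j : ℂ))
  obtain ⟨c, hc, hcV, hcY, b, hb⟩ := hgood V hV y0 hy0 hy0Y
  set y := c • y0 with hy
  set v := V.valuation with hv
  have hvp : v (p : ℂ) < 1 := by
    rwa [ValuationSubring.mem_nonunits_iff] at hV
  set u : ℂ := ∑ j, (s 0 j : ℂ) * y j with hu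
  have hlin : ∀ i : Fin m, ∑ j, (s i.succ j : ℂ) * y j = w i * u := by
    intro i
    have h1 : ∑ j, ((s i.succ j : ℂ) - w i * (s 0 j : ℂ)) * y j = 0 := by
      have h2 := hy0l i
      have h3 : ∑ j, ((s i.succ j : ℂ) - w i * (s 0 j : ℂ)) * y j =
        c * ∑ j, ((s i.succ j : ℂ) - w i * (s 0 j : ℂ)) * y0 j := by
        rw [Finset.mul_sum]
        refine Finset.sum_congr rfl fun j _ => ?_
        rw [hy, Pi.smul_apply, smul_eq_mul]
        ring
      rw [h3, h2, mul_zero]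
    have h4 : ∑ j, ((s i.succ j : ℂ) - w i * (s 0 j : ℂ)) * y j =
        ∑ j, (s i.succ j : ℂ) * y j - w i * u := by
      rw [hu, Finset.mul_sum, ← Finset.sum_sub_distrib]
      refine Finset.sum_congr rfl fun j _ => ?_
      ring
    rw [h4] at h1
    exact sub_eq_zero.1 h1
  have huV' : u ∈ V := sum_mem fun j _ => mul_mem (intCast_mem V _) (hcV j)
  have huV : v u ≤ 1 := by
    rw [ValuationSubring.valuation_le_one_iff]
    exact huV'
  have hu1 : v u = 1 := by
    refine Fin.cases (fun hb => hb) (fun i hb => ?_) b hb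
    rw [hlin, map_mul] at hb
    refine le_antisymm huV ?_
    rw [← hb]
    exact mul_le_of_le_one_left' ((ValuationSubring.valuation_le_one_iff _ _).2 (hwV i))
  -- the values
  have hBc : ∀ i, Cl V (ev (B i) y) (u ^ (6 * e i)) := by
    intro i
    refine Cl.of_lt (pow_mem huV' _) ?_
    have h1 := ev_congr V hcV (p : ℤ) (hB i)
    rw [ev_pw] at h1
    refine h1.trans_lt ?_
    simpa using hvp
  have hAc : ∀ i : Fin m, Cl V (ev (A (Fin.castLE hmn.le i)) y)
      ((w i * u) ^ (4 * e (Fin.castLE hmn.le i))) := by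
    intro i
    refine Cl.of_lt (pow_mem (mul_mem (hwV i) huV') _) ?_
    have h1 := ev_congr V hcV (p : ℤ) (hA i)
    rw [ev_pw, hlin] at h1
    refine h1.trans_lt ?_
    simpa using hvp
  have hA0c : ∀ i : Fin n, m ≤ (i : ℕ) → Cl V (ev (A i) y) 0 := by
    intro i hi
    refine Cl.of_lt (zero_mem V) ?_
    have h1 := ev_congr V hcV (p : ℤ) (c := A i) (c' := fun _ => 0)
      (fun u => by rw [sub_zero]; exact hA0 i hi u)
    have h2 : ev (fun _ => 0 : Sym σ (4 * e i) → ℤ) y = 0 := by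
      simp [ev]
    rw [h2] at h1
    refine h1.trans_lt ?_
    simpa using hvp
  have hB1 : ∀ i, v (ev (B i) y) = 1 := by
    intro i
    exact (hBc i).val (by rw [map_pow, hu1, one_pow])
  have hB0 : ∀ i, ev (B i) y ≠ 0 := by
    intro i h
    have := hB1 i
    rw [h, map_zero] at this
    exact zero_ne_one this
  have h27 : v (27 : ℂ) = 1 := by
    have h1 := hgauss (C 27) (not_dvd_C27 hp hp3)
    rw [aeval_C] at h1
    simpa using h1
  have h4V : (4 : ℂ) ∈ V := by
    have := natCast_mem V 4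
    exact_mod_cast this
  have h27V : (27 : ℂ) ∈ V := by
    have := natCast_mem V 27
    exact_mod_cast this
  have hd1 : ∀ i, v (dsc (A i) (B i) y) = 1 := by
    intro i
    by_cases hi : m ≤ (i : ℕ)
    · have h1 : Cl V (dsc (A i) (B i) y) (4 * 0 ^ 3 + 27 * (u ^ (6 * e i)) ^ 2) :=
        ((Cl.refl h4V).mul ((hA0c i hi).pow 3)).add ((Cl.refl h27V).mul ((hBc i).pow 2))
      refine h1.val ?_
      have h2 : (4 : ℂ) * 0 ^ 3 + 27 * (u ^ (6 * e i)) ^ 2 = 27 * (u ^ (6 * e i)) ^ 2 := by ring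
      rw [h2, map_mul, h27, map_pow, map_pow, hu1]
      simp
    · obtain ⟨i', rfl⟩ : ∃ i' : Fin m, Fin.castLE hmn.le i' = i :=
        ⟨⟨i, not_le.mp hi⟩, rfl⟩
      have h1 : Cl V (dsc (A (Fin.castLE hmn.le i')) (B (Fin.castLE hmn.le i')) y)
          (4 * ((w i' * u) ^ (4 * e (Fin.castLE hmn.le i'))) ^ 3 +
            27 * (u ^ (6 * e (Fin.castLE hmn.le i'))) ^ 2) :=
        ((Cl.refl h4V).mul ((hAc i').pow 3)).add ((Cl.refl h27V).mul ((hBc _).pow 2))
      refine h1.val ?_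
      have h2 : (4 : ℂ) * ((w i' * u) ^ (4 * e (Fin.castLE hmn.le i'))) ^ 3 +
            27 * (u ^ (6 * e (Fin.castLE hmn.le i'))) ^ 2 =
          (4 * w i' ^ (12 * e (Fin.castLE hmn.le i')) + 27) *
            u ^ (12 * e (Fin.castLE hmn.le i')) := by
        rw [mul_pow, mul_pow, ← pow_mul, ← pow_mul, ← pow_mul]
        have e1 : 4 * e (Fin.castLE hmn.le i') * 3 = 12 * e (Fin.castLE hmn.le i') := by ring
        have e2 : 6 * e (Fin.castLE hmn.le i') * 2 = 12 * e (Fin.castLE hmn.le i') := by ring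
        rw [e1, e2]
        ring
      have h3 := hgauss _ (not_dvd_lin hp hp3 i'
        (e := 12 * e (Fin.castLE hmn.le i')) (by have := he (Fin.castLE hmn.le i'); omega))
      have h4 : aeval w (C 4 * X i' ^ (12 * e (Fin.castLE hmn.le i')) + C 27 :
          MvPolynomial (Fin m) ℤ) = 4 * w i' ^ (12 * e (Fin.castLE hmn.le i')) + 27 := by
        simp
      rw [h4] at h3
      rw [h2, map_mul, map_pow, hu1, one_pow, mul_one]
      exact h3
  have hd0 : ∀ i, dsc (A i) (B i) y ≠ 0 := by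
    intro i h
    have := hd1 i
    rw [h, map_zero] at this
    exact zero_ne_one this
  refine ⟨y, smul_ne_zero hc hy0, hcY, hd0, ?_⟩
  -- the numbers `z`
  set L : ℕ := ∏ i : Fin m, e (Fin.castLE hmn.le i) with hL
  have hL0 : 0 < L := Finset.prod_pos fun i _ => he _
  have hLe : ∀ i : Fin m, e (Fin.castLE hmn.le i) * (L / e (Fin.castLE hmn.le i)) = L := fun i =>
    Nat.mul_div_cancel' (Finset.dvd_prod_of_mem (fun i : Fin m => e (Fin.castLE hmn.le i))
      (Finset.mem_univ i))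
  set z : Fin m → ℂ := fun i =>
    (ev (A (Fin.castLE hmn.le i)) y ^ 3 / ev (B (Fin.castLE hmn.le i)) y ^ 2) ^
      (L / e (Fin.castLE hmn.le i)) with hz
  have htc : ∀ i : Fin m, Cl V
      (ev (A (Fin.castLE hmn.le i)) y ^ 3 / ev (B (Fin.castLE hmn.le i)) y ^ 2)
      (w i ^ (12 * e (Fin.castLE hmn.le i))) := by
    intro i
    have hwp : w i ^ (12 * e (Fin.castLE hmn.le i)) ∈ V := pow_mem (hwV i) _
    refine Cl.of_lt hwp ?_
    have h1 : Cl V (ev (A (Fin.castLE hmn.le i)) y ^ 3)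
        (w i ^ (12 * e (Fin.castLE hmn.le i)) * u ^ (12 * e (Fin.castLE hmn.le i))) := by
      have h2 := (hAc i).pow 3
      have e1 : ((w i * u) ^ (4 * e (Fin.castLE hmn.le i))) ^ 3 =
          w i ^ (12 * e (Fin.castLE hmn.le i)) * u ^ (12 * e (Fin.castLE hmn.le i)) := by
        rw [mul_pow, mul_pow, ← pow_mul, ← pow_mul]
        have e1 : 4 * e (Fin.castLE hmn.le i) * 3 = 12 * e (Fin.castLE hmn.le i) := by ring
        rw [e1]
      rwa [e1] at h2
    have h3 : Cl V (w i ^ (12 * e (Fin.castLE hmn.le i)) * ev (B (Fin.castLE hmn.le i)) y ^ 2)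
        (w i ^ (12 * e (Fin.castLE hmn.le i)) * u ^ (12 * e (Fin.castLE hmn.le i))) := by
      have h2 := (Cl.refl hwp).mul ((hBc (Fin.castLE hmn.le i)).pow 2)
      have e1 : (u ^ (6 * e (Fin.castLE hmn.le i))) ^ 2 = u ^ (12 * e (Fin.castLE hmn.le i)) := by
        rw [← pow_mul]
        congr 1
        ring
      rwa [e1] at h2
    have h4 : ev (A (Fin.castLE hmn.le i)) y ^ 3 / ev (B (Fin.castLE hmn.le i)) y ^ 2 -
        w i ^ (12 * e (Fin.castLE hmn.le i)) =
        ((ev (A (Fin.castLE hmn.le i)) y ^ 3 - w i ^ (12 * e (Fin.castLE hmn.le i)) *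
            u ^ (12 * e (Fin.castLE hmn.le i))) -
          (w i ^ (12 * e (Fin.castLE hmn.le i)) * ev (B (Fin.castLE hmn.le i)) y ^ 2 -
            w i ^ (12 * e (Fin.castLE hmn.le i)) * u ^ (12 * e (Fin.castLE hmn.le i)))) /
          ev (B (Fin.castLE hmn.le i)) y ^ 2 := by
      have := hB0 (Fin.castLE hmn.le i)
      field_simp
      ring
    rw [h4, map_div₀, map_pow, hB1, one_pow, div_one]
    exact Valuation.map_sub_lt _ h1.2.2 h3.2.2
  have hzind : AlgebraicIndependent ℚ z := by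
    refine algInd_of_close (d := 12 * L) (by omega) hp w z V hV hwV hgauss fun i => ?_
    have h1 := (htc i).pow (L / e (Fin.castLE hmn.le i))
    have e1 : (w i ^ (12 * e (Fin.castLE hmn.le i))) ^ (L / e (Fin.castLE hmn.le i)) =
        w i ^ (12 * L) := by
      rw [← pow_mul, mul_assoc, hLe]
    rw [e1] at h1
    exact h1.2.2
  refine algInd_of_adjoin _ z hzind fun i => ?_
  -- `z i` is in the field generated by the `j`-invariants
  refine pow_mem ?_ _
  set a := ev (A (Fin.castLE hmn.le i)) y with ha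
  set b' := ev (B (Fin.castLE hmn.le i)) y with hb'
  set j : ℂ := 6912 * a ^ 3 / dsc (A (Fin.castLE hmn.le i)) (B (Fin.castLE hmn.le i)) y with hj
  have hjm : j ∈ IntermediateField.adjoin ℚ (Set.range fun i : Fin m =>
      6912 * ev (A (Fin.castLE hmn.le i)) y ^ 3 /
        dsc (A (Fin.castLE hmn.le i)) (B (Fin.castLE hmn.le i)) y) :=
    IntermediateField.subset_adjoin ℚ _ ⟨i, rfl⟩
  have hD0 := hd0 (Fin.castLE hmn.le i)
  have hdsc : dsc (A (Fin.castLE hmn.le i)) (B (Fin.castLE hmn.le i)) y =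
      4 * a ^ 3 + 27 * b' ^ 2 := rfl
  have hb0 : b' ≠ 0 := hB0 _
  have hkey : a ^ 3 / b' ^ 2 = 27 * j / (6912 - 4 * j) := by
    have h1 : 6912 - 4 * j = 6912 * 27 * b' ^ 2 /
        dsc (A (Fin.castLE hmn.le i)) (B (Fin.castLE hmn.le i)) y := by
      rw [hj]
      field_simp
      rw [hdsc]
      ring
    rw [h1, hj]
    field_simp
  rw [hkey]
  have hn : ∀ k : ℕ, (k : ℂ) ∈ IntermediateField.adjoin ℚ (Set.range fun i : Fin m =>
      6912 * ev (A (Fin.castLE hmn.le i)) y ^ 3 /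
        dsc (A (Fin.castLE hmn.le i)) (B (Fin.castLE hmn.le i)) y) := fun k => natCast_mem _ k
  refine div_mem (mul_mem ?_ hjm) (sub_mem ?_ (mul_mem ?_ hjm))
  · exact_mod_cast hn 27
  · exact_mod_cast hn 6912
  · exact_mod_cast hn 4

end Pool.Agent.W67.RW
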